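import Pool.Agent.W900.CH.NELev
import Pool.Agent.H591R3.PHG.Cover
import Pool.Agent.H591R3.PHG.LangSig
import Pool.Agent.H620R2.Gauge.NonNull
import Pool.Agent.H620R2.GaugeX.NonNullX
import Pool.Agent.H620R2.Gauge2.Null

/-!
# How many strings of a random oracle have to be changed to collapse the polynomial hierarchy?

Relative to almost every oracle `O` the polynomial hierarchy is infinite. Here the oracle `O` is
changed by an adversary who knows it: for a function `g`, the oracle `A` is obtained from `O` by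
changing, for all large `n`, at most `g n` of the strings of length at most `n` (`Close g O A`).

If for every `ε > 0` there are infinitely many `n` with `g n ≤ 2 ^ (n ^ ε)`, then for almost every
`O` and every `A` close to `O` all levels of the hierarchy relative to `A` are different, and even
`Σ_{k+1}` is not contained in `Σ_k/poly`. For all other functions `g`, every oracle `O` (and not
only almost every one) has an `A` close to it relative to which the hierarchy collapses to `P`, and
another one relative to which it collapses exactly to `NP`.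
-/

set_option autoImplicit false

namespace Pool.Agent.Results.MP_28250c_lc.ChangedStrings

open Pool.Agent.NPC Pool.Agent.H620R2.Gauge Pool.Agent.H591R3.PHG
open Pool.Agent.H628R3.RO (randomOracle)
open Pool.Agent.W900.CH (Close)
open MeasureTheory Filter

theorem result (g : ℕ → ℝ) :
    ((∀ ε : ℝ, 0 < ε → ∃ᶠ n : ℕ in atTop, g n ≤ 2 ^ (n : ℝ) ^ ε) →
      ∀ᵐ O ∂randomOracle, ∀ A : Oracle, Close g O A →
        ∀ k : ℕ, ∃ L, IsSig A (k + 1) L ∧ ¬ IsSigPoly A k L) ∧
    ((¬ ∀ ε : ℝ, 0 < ε → ∃ᶠ n : ℕ in atTop, g n ≤ 2 ^ (n : ℝ) ^ ε) →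
      ∀ O : Oracle,
        (∃ A : Oracle, Close g O A ∧ ∀ (k : ℕ) (L : Set (List Bool)), IsSig A k L → IsP A L) ∧
        ∃ A : Oracle, Close g O A ∧
          (∀ (k : ℕ) (L : Set (List Bool)), IsSig A k L → IsNP A L) ∧
          ∃ L, IsNP A L ∧ ¬ IsP A L) := by
  refine ⟨fun hg => ?_, fun hg O => ⟨?_, ?_⟩⟩
  · have h1 : ∀ᵐ O ∂randomOracle, ∀ A, Close g O A →
        A ∉ {A : Oracle | ∃ k, ∀ L, IsSig A (k + 1) L → IsSigPoly A k L} := by
      refine Pool.Agent.W900.CH.ae_far_P (fun f hf => ?_) hg
      refine null_of_frequently2 f hf _ fun A hA => ?_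
      obtain ⟨k, hk⟩ := hA
      exact ⟨k, hk _ (lang_sig A k)⟩
    filter_upwards [h1] with O h2 A hA k
    by_contra hcon
    push Not at hcon
    exact h2 A hA ⟨k, hcon⟩
  · obtain ⟨A, hA, h1⟩ := Pool.Agent.W900.CH.exists_close_PSPACE hg O
    exact ⟨A, hA, fun k L hL => isP_of_reduces (h1 L hL.isPH.isPSPACE)⟩
  · obtain ⟨A, hA, h1, L, h2, h3⟩ := Pool.Agent.W900.CH.exists_close_ZPP hg O
    exact ⟨A, hA, fun k L hL => (h1 L (Or.inr hL.isPH.isPSPACE)).isNP, L, h2.isNP, h3⟩

end Pool.Agent.Results.MP_28250c_lc.ChangedStrings
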