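import Pool.Agent.TH680.IE.Law

/-!
# The polynomial hierarchy relative to random oracles with independent bits

An oracle `A` is chosen at random: the string `x` is in `A` with probability `p x`, independently
for all strings `x`, where `p` is an arbitrary function (`indep p` is the distribution of `A`). Let
`mode p` be the oracle of the more probable values, i.e. the set of the `x` with `p x > 1 / 2`, and
let `dev p n` be the expected number of the strings of length `n` for which `A` has the less
probable value.

* If `dev p` is bounded by a polynomial, then the polynomial hierarchy relative to `A` is infinite
  for almost all `A` or finite for almost all `A`; it is infinite if and only if the hierarchy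
  relative to `mode p` is infinite.
* If `dev p` is not bounded by a polynomial, then the polynomial hierarchy relative to `A` is
  infinite for almost all `A`, provided that `mode p` is in the polynomial hierarchy relative to
  `A`, for almost all `A`. This is the case if `mode p` is in the polynomial hierarchy; for example
  if `p x ≤ 1 / 2` for all `x`, so that `mode p` is empty.

So if every string `x` is put into a set independently with a probability `p x ≤ 1 / 2`, the
hierarchy is unconditionally infinite relative to almost all these sets if and only if the expected
number of their strings of length `n` is not bounded by a polynomial; otherwise the question is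
equivalent to the question whether the (unrelativized) hierarchy is infinite.

Idea of the proof of the second part: the strings of a length `ν` for which `dev p ν` is larger
than a large power of `ν` are distributed to `2 ^ J` cells with hash functions, `J` a large constant
times `log ν`, so that every cell has about `J` deviations; the descriptions of the cells are part
of the input; the parities of the numbers of deviations in the cells are nearly fair coins for
the average-case depth hierarchy theorem (Håstad, Rossman, Servedio, Tan), and they are computed
with two quantifiers. The library folder `Pool/Agent/W900/IE` of the starting repository had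
prepared the bound for one family of cells, the hash functions, the definability, and Yap's theorem;
new are the choice of the parameters, the almost sure lower bound, and the treatment of sparse
deviations from an arbitrary oracle.
-/

set_option autoImplicit false

namespace Pool.Agent.Results.MP_28250c_lc.IndependentBits

open MeasureTheory Pool.Agent.NPC Pool.Agent.H620R2.Gauge
open Pool.Agent.H591R3.PHG (IsSig)
open Pool.Agent.W900.IE (InfinitePH indep dev)

/-- The more probable values. -/
noncomputable def mode (p : List Bool → unitInterval) : Oracle := fun x =>
  decide ((1 / 2 : ℝ) < p x)

/-- The sequence `f` is bounded by a polynomial. -/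
def PolyBounded (f : ℕ → ℝ) : Prop := ∃ c : ℕ, ∀ n, f n ≤ (n : ℝ) ^ c + c

/-- **Random oracles with independent bits.** -/
theorem result (p : List Bool → unitInterval) :
    (PolyBounded (dev p) →
      ∀ᵐ A ∂(indep p), (InfinitePH A ↔ InfinitePH (mode p))) ∧
    (¬ PolyBounded (dev p) → (∀ᵐ A ∂(indep p), ∃ k, IsSig A k {x | mode p x = true}) →
      ∀ᵐ A ∂(indep p), InfinitePH A) ∧
    ((∀ x, (p x : ℝ) ≤ 1 / 2) →
      ∀ᵐ A ∂(indep p), (InfinitePH A ↔ ¬ PolyBounded (dev p) ∨ InfinitePH fun _ => false)) := by
  have h1 : PolyBounded (dev p) → ∀ᵐ A ∂(indep p), (InfinitePH A ↔ InfinitePH (mode p)) :=
    fun h => TH680.IE.ae_iff h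
  have h2 : ¬ PolyBounded (dev p) → (∀ᵐ A ∂(indep p), ∃ k, IsSig A k {x | mode p x = true}) →
      ∀ᵐ A ∂(indep p), InfinitePH A := fun h h' => TH680.IE.ae_infinite h h'
  refine ⟨h1, h2, fun hp => ?_⟩
  have hm : mode p = fun _ => false := by
    funext x
    exact decide_eq_false (not_lt.2 (hp x))
  by_cases h : PolyBounded (dev p)
  · filter_upwards [h1 h] with A hA
    rw [hA, hm]
    constructor
    · exact Or.inr
    · rintro (h' | h')
      · exact absurd h h'
      · exact h'
  · have h3 : ∀ᵐ A ∂(indep p), ∃ k, IsSig A k {x | mode p x = true} := by
      refine Filter.Eventually.of_forall fun A => ⟨0, ?_⟩
      rw [hm]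
      exact W900.IE.Lev.isSig (n := 0) (W900.IE.Lev.base
        (W900.IE.TT.poly A (g := fun _ : List Bool => false) (NPC.Poly.const false)))
    filter_upwards [h2 h h3] with A hA
    exact ⟨fun _ => Or.inl h, fun _ => hA⟩

end Pool.Agent.Results.MP_28250c_lc.IndependentBits
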