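import Pool.Agent.TH442.RS.Inv
import Pool.Agent.TH442.RP.Inv

/-!
# The polynomial hierarchy relative to random structures

`R` is a sequence of relations with `K ≥ 1` places, one on the set of the strings of length `n`
for every `n`. The sequence is random; its law is invariant under renaming the strings of every
length, and otherwise arbitrary. For example, `R n` can be the image of a fixed structure (a set,
a graph, an order, the graph of a function, the multiplication of a group, ...) on the strings of
length `n` under a uniformly random permutation of these strings (generic structures), or a
random structure of a law that does not depend on the names of the elements. The relations for
different lengths need not be independent. The oracle `ora R` answers questions about membership.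

Almost surely the polynomial hierarchy relative to `ora R` is infinite if and only if the supports
of the relations `R n` are not polynomially bounded or the hierarchy without an oracle is
infinite. Here the support of `r` is the least number of strings such that `r` is invariant under
all the permutations that fix these strings. This is part 1 of the theorem. Part 2 is the same
for random permutations `π n` of the strings of length `n` and the oracle that gives the bits of
`π y`, if the law is invariant under conjugation; here the number of strings that are moved by
`π n` replaces the support.

Idea of the proof of part 1. Call `w` usable if there is a tuple of strings starting with `0` and
of occurrences of a variable at which `R` has different values if the variable is `10w` and if it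
is `11w`. Exchanging the names `10w` and `11w` changes the value at the first such tuple and does
not change the set of the usable strings; hence the random structure can be obtained by first
choosing `R` and then exchanging the two names with a fair coin for every usable `w`. The
renamed structure can be computed, with the help of the polynomial hierarchy, from a part that
does not depend on the coins and the coins, and conversely; so it is as good as a random oracle
with independent fair bits at the usable strings, to which the theorem about hard languages
behind the hand-in IndependentBits applies for every choice of `R`. The expected number of usable
strings is at least a constant (which depends on `K`) times the expected support, for all laws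
that are invariant under renaming (`count`): elements that are distinguished (by tuples of any
further elements) from less than one fourth of the elements can be exchanged with each other
without changing the relation, so the other elements are a support; hence there are many
distinguished pairs, and by symmetry every pair is distinguished with the same probability; and
the further elements can be moved into any given half of the strings, with the loss of a constant
factor. With both lemmas of Borel and Cantelli, almost surely the number of usable strings is not
polynomially bounded if the supports are not; the case of laws without independence follows with
the theorem of Fubini for a further uniformly random renaming. If the supports are polynomially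
bounded, then `ora R` is definable from a sparse oracle, and Yap's theorem applies.
-/

set_option autoImplicit false

namespace Pool.Agent.Results.MP_28250c_lc.RandomStructures

open MeasureTheory Pool.Agent.H620R2.Gauge
open Pool.Agent.W900.IE (InfinitePH)
open Pool.Agent.TH442

/-- The sequence `f` is bounded by a polynomial. -/
def PolyBounded (f : ℕ → ℕ) : Prop := ∃ c : ℕ, ∀ n, f n ≤ n ^ c + c

/-- **The polynomial hierarchy relative to random structures.** -/
theorem result :
    (∀ (K : ℕ) (ρ : Measure (RS.Strs K)), 1 ≤ K → IsProbabilityMeasure ρ →
      (∀ τ : (n : ℕ) → Equiv.Perm (Fin n → Bool), ρ.map (fun R n => RS.ren (τ n) (R n)) = ρ) →
      ∀ᵐ R ∂ρ, (InfinitePH (RS.ora R) ↔
        ¬ PolyBounded (fun n => RS.supp (R n)) ∨ InfinitePH fun _ => false)) ∧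
    (∀ ρ : Measure RP.Perms, IsProbabilityMeasure ρ →
      (∀ τ : (n : ℕ) → Equiv.Perm (Fin n → Bool),
        ρ.map (fun π n => τ n * π n * (τ n)⁻¹) = ρ) →
      ∀ᵐ π ∂ρ, (InfinitePH (RP.ora π) ↔
        ¬ PolyBounded (RP.moved π) ∨ InfinitePH fun _ => false)) :=
  ⟨fun _ _ hK _ hρ => RS.main_inv hK hρ, fun _ _ hρ => RP.main_inv hρ⟩

end Pool.Agent.Results.MP_28250c_lc.RandomStructures
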