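import Pool.Agent.TH681.Imm.Final

/-!
# Strong separations of all the levels of the polynomial hierarchy relative to a random oracle

For almost every oracle `A` and for every `k ≥ 1`, some set in `Σ_k^A` is infinite and has no
infinite subset in `Π_k^A`, and some set in `Π_k^A` is infinite and has no infinite subset in
`Σ_k^A` (its complement is a `Σ_k^A`-simple set); the two sets are complements of one another
inside an infinite set which is in `P` (without an oracle).
-/

set_option autoImplicit false

namespace Pool.Agent.Results.MP_28250c_lc.StrongSeparationRandomOracle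

open Pool.Agent.NPC Pool.Agent.H620R2.Gauge Pool.Agent.H591R3.PHG
open Pool.Agent.H628R3.RO (randomOracle)

theorem result : ∀ᵐ A ∂randomOracle, ∀ k : ℕ, ∃ T L : Set (List Bool),
    InP T ∧ L ⊆ T ∧ L.Infinite ∧ (T \ L).Infinite ∧
    IsSig A (k + 1) L ∧ IsSig A (k + 1) (T \ L)ᶜ ∧
    (∀ L', L' ⊆ L → L'.Infinite → ¬ IsSig A (k + 1) L'ᶜ) ∧
    (∀ L', L' ⊆ T \ L → L'.Infinite → ¬ IsSig A (k + 1) L') := by
  filter_upwards [Pool.Agent.TH681.Imm.strong] with A hA k
  obtain ⟨h1, h2, h3, h4, h5, h6, h7, h8⟩ := hA k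
  exact ⟨Pool.Agent.TH681.Imm.Tset k, Pool.Agent.TH681.Imm.Lset k A, h1, h2, h5, h6, h3, h4, h7, h8⟩

end Pool.Agent.Results.MP_28250c_lc.StrongSeparationRandomOracle
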